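import Pool.Agent.Q237.L2.Yb
import Pool.Agent.Q190.EP.AZ

/-! # Project L2 (helper255): the tail of the sum of squares for fair signs -/

set_option autoImplicit false

namespace Pool.Agent.Q237.L2

open Filter Topology MeasureTheory Pool.Agent.Q255.IC Pool.Agent.Q255.IR Pool.Agent.Q255.EP
open Pool.Agent.Q255.L2 Pool.Agent.Q13.EP Pool.Agent.Q190.EP
open scoped ENNReal

/-! The two point inequality (copied from `Pool.Agent.Q163.HC.Bon`). -/

theorem sum_parity (f : ℕ → ℝ) (k : ℕ) : ∑ i ∈ Finset.range (2 * k + 1), f i =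
    ∑ j ∈ Finset.range (k + 1), f (2 * j) + ∑ j ∈ Finset.range k, f (2 * j + 1) := by
  induction k with
  | zero => simp
  | succ k ih =>
    rw [show 2 * (k + 1) + 1 = 2 * k + 1 + 1 + 1 by ring, Finset.sum_range_succ,
      Finset.sum_range_succ, ih, Finset.sum_range_succ (fun j => f (2 * j)) (k + 1),
      Finset.sum_range_succ (fun j => f (2 * j + 1)) k]
    rw [show 2 * (k + 1) = 2 * k + 1 + 1 by ring]
    ring

theorem choose_le (k : ℕ) (hk : 1 ≤ k) (j : ℕ) (hj : j ≤ k) :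
    ((2 * k).choose (2 * j) : ℝ) ≤ k.choose j * (2 * k - 1) ^ j := by
  have hkR : (1 : ℝ) ≤ k := by exact_mod_cast hk
  induction j with
  | zero => simp
  | succ j ih =>
    have hjk : j ≤ k := by omega
    have h0 := ih hjk
    have hjR : (j : ℝ) + 1 ≤ k := by exact_mod_cast hj
    have e1 : ((2 * k).choose (2 * j + 1) : ℝ) * (2 * j + 1) = (2 * k).choose (2 * j) * (2 * k - 2 * j) := by
      have h := Nat.choose_succ_right_eq (2 * k) (2 * j)
      have h2 : (((2 * k).choose (2 * j + 1) * (2 * j + 1) : ℕ) : ℝ) =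
          (((2 * k).choose (2 * j) * (2 * k - 2 * j) : ℕ) : ℝ) := by rw [h]
      rw [Nat.cast_mul, Nat.cast_mul, Nat.cast_sub (by omega)] at h2
      push_cast at h2
      exact h2
    have e2 : ((2 * k).choose (2 * (j + 1)) : ℝ) * (2 * j + 2) =
        (2 * k).choose (2 * j + 1) * (2 * k - (2 * j + 1)) := by
      have h := Nat.choose_succ_right_eq (2 * k) (2 * j + 1)
      have h2 : (((2 * k).choose (2 * j + 1 + 1) * (2 * j + 1 + 1) : ℕ) : ℝ) =
          (((2 * k).choose (2 * j + 1) * (2 * k - (2 * j + 1)) : ℕ) : ℝ) := by rw [h]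
      rw [Nat.cast_mul, Nat.cast_mul, Nat.cast_sub (by omega)] at h2
      push_cast at h2
      rw [show 2 * (j + 1) = 2 * j + 1 + 1 by ring]
      linarith
    have e3 : (k.choose (j + 1) : ℝ) * (j + 1) = k.choose j * (k - j) := by
      have h := Nat.choose_succ_right_eq k j
      have h2 : ((k.choose (j + 1) * (j + 1) : ℕ) : ℝ) = ((k.choose j * (k - j) : ℕ) : ℝ) := by rw [h]
      rw [Nat.cast_mul, Nat.cast_mul, Nat.cast_sub hjk] at h2
      push_cast at h2
      exact h2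
    have hp : (0 : ℝ) < (2 * j + 1) * (2 * j + 2) := by positivity
    have e4 : ((2 * k).choose (2 * (j + 1)) : ℝ) * ((2 * j + 1) * (2 * j + 2)) =
        (2 * k).choose (2 * j) * ((2 * k - 2 * j) * (2 * k - (2 * j + 1))) := by
      linear_combination (2 * (j : ℝ) + 1) * e2 + (2 * (k : ℝ) - (2 * j + 1)) * e1
    have e5 : (k.choose (j + 1) : ℝ) * (2 * k - 1) ^ (j + 1) * ((2 * j + 1) * (2 * j + 2)) =
        k.choose j * (2 * k - 1) ^ j * ((2 * k - 2 * j) * ((2 * k - 1) * (2 * j + 1))) := by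
      rw [pow_succ]
      linear_combination 2 * (2 * (j : ℝ) + 1) * (2 * k - 1) ^ j * (2 * k - 1) * e3
    refine le_of_mul_le_mul_right ?_ hp
    rw [e4, e5]
    have h1 : (0 : ℝ) ≤ (2 * k - 2 * j) := by linarith
    have h2 : (2 * (k : ℝ) - (2 * j + 1)) ≤ (2 * k - 1) * (2 * j + 1) := by
      have : (0 : ℝ) ≤ j := Nat.cast_nonneg _
      nlinarith
    have h3 : (0 : ℝ) ≤ 2 * k - (2 * j + 1) := by linarith
    have h4 : (0 : ℝ) ≤ k.choose j * (2 * k - 1) ^ j := by
      have : (0 : ℝ) ≤ 2 * k - 1 := by linarith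
      positivity
    exact mul_le_mul h0 (mul_le_mul_of_nonneg_left h2 h1) (mul_nonneg h1 h3) h4

theorem two_point (k : ℕ) (hk : 1 ≤ k) (g h : ℝ) :
    (g + h) ^ (2 * k) + (g - h) ^ (2 * k) ≤ 2 * (g ^ 2 + (2 * k - 1) * h ^ 2) ^ k := by
  have h1 : (g + h) ^ (2 * k) =
      ∑ i ∈ Finset.range (2 * k + 1), h ^ i * g ^ (2 * k - i) * (2 * k).choose i := by
    rw [add_comm, add_pow]
  have h2 : (g - h) ^ (2 * k) = ∑ i ∈ Finset.range (2 * k + 1),
      (-h) ^ i * g ^ (2 * k - i) * (2 * k).choose i := by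
    rw [sub_eq_neg_add, add_pow]
  rw [h1, h2, ← Finset.sum_add_distrib, sum_parity]
  have h3 : ∑ j ∈ Finset.range k,
      (h ^ (2 * j + 1) * g ^ (2 * k - (2 * j + 1)) * ((2 * k).choose (2 * j + 1) : ℝ) +
      (-h) ^ (2 * j + 1) * g ^ (2 * k - (2 * j + 1)) * ((2 * k).choose (2 * j + 1) : ℝ)) = 0 := by
    refine Finset.sum_eq_zero fun j _ => ?_
    rw [Odd.neg_pow ⟨j, rfl⟩]
    ring
  rw [h3, add_zero]
  have h4 : (g ^ 2 + (2 * k - 1) * h ^ 2) ^ k = ∑ j ∈ Finset.range (k + 1),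
      ((2 * k - 1) * h ^ 2) ^ j * (g ^ 2) ^ (k - j) * (k.choose j : ℝ) := by
    rw [add_comm, add_pow]
  rw [h4, Finset.mul_sum]
  refine Finset.sum_le_sum fun j hj => ?_
  have hjk : j ≤ k := by
    have := Finset.mem_range.1 hj
    omega
  rw [Even.neg_pow ⟨j, by ring⟩, pow_mul h 2 j, show 2 * k - 2 * j = 2 * (k - j) by omega,
    pow_mul g 2 (k - j), mul_pow]
  have h5 := choose_le k hk j hjk
  have h6 : (0 : ℝ) ≤ (h ^ 2) ^ j * (g ^ 2) ^ (k - j) := by positivity
  have h7 := mul_le_mul_of_nonneg_left h5 h6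
  linarith

theorem convex_pow (k : ℕ) {A B u v : ℝ} (hA : 0 < A) (hB : 0 < B) (hu : 0 ≤ u) (hv : 0 ≤ v) :
    (A * u + B * v) ^ k ≤ (A + B) ^ k * (A / (A + B) * u ^ k + B / (A + B) * v ^ k) := by
  have hAB : 0 < A + B := by linarith
  have h1 := (convexOn_pow k).2 (show u ∈ Set.Ici (0 : ℝ) from hu) (show v ∈ Set.Ici (0 : ℝ) from hv)
    (by positivity : (0 : ℝ) ≤ A / (A + B)) (by positivity : (0 : ℝ) ≤ B / (A + B))
    (by field_simp)
  simp only [smul_eq_mul] at h1
  have h2 : A * u + B * v = (A + B) * (A / (A + B) * u + B / (A + B) * v) := by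
    field_simp
  rw [h2, mul_pow]
  exact mul_le_mul_of_nonneg_left h1 (by positivity)

/-! Hypercontractivity for words. -/

/-- one more sign -/
theorem wstep {n : ℕ} (q : ℕ) (hq : 1 ≤ q) (m : Fin n) (G H : (ℕ → Bool) → ℝ)
    (hG : ∀ s, G (ext (Q190.EP.flip m s)) = G (ext s))
    (hH : ∀ s, H (ext (Q190.EP.flip m s)) = H (ext s))
    {A B : ℝ} (hA : 0 < A) (hB : 0 < B)
    (h1 : ∑ s : Fin n → Bool, G (ext s) ^ (2 * q) ≤ 2 ^ n * A ^ q)
    (h2 : ∑ s : Fin n → Bool, H (ext s) ^ (2 * q) ≤ 2 ^ n * B ^ q) :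
    ∑ s : Fin n → Bool, (G (ext s) + sg (ext s) m * H (ext s)) ^ (2 * q) ≤
      2 ^ n * (A + 2 * q * B) ^ q := by
  have hqR : (1 : ℝ) ≤ q := by exact_mod_cast hq
  have h3 : ∑ s : Fin n → Bool, (G (ext s) + sg (ext s) m * H (ext s)) ^ (2 * q) =
      ∑ s : Fin n → Bool, (G (ext s) - sg (ext s) m * H (ext s)) ^ (2 * q) := by
    rw [← sum_flip m]
    refine Finset.sum_congr rfl fun s _ => ?_
    rw [hG, hH, sg_flip]
    congr 1
    ring
  have hB' : 0 < 2 * (q : ℝ) * B := by positivity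
  have hAB : 0 < A + 2 * (q : ℝ) * B := by positivity
  have hpt : ∀ s : Fin n → Bool, (G (ext s) + sg (ext s) m * H (ext s)) ^ (2 * q) +
      (G (ext s) - sg (ext s) m * H (ext s)) ^ (2 * q) ≤
      2 * ((A + 2 * q * B) ^ q * (A / (A + 2 * q * B) * (G (ext s) ^ (2 * q) / A ^ q) +
        2 * q * B / (A + 2 * q * B) * (H (ext s) ^ (2 * q) / B ^ q))) := by
    intro s
    refine (two_point q hq _ _).trans (mul_le_mul_of_nonneg_left ?_ (by norm_num))
    have hs : (sg (ext s) m * H (ext s)) ^ 2 = H (ext s) ^ 2 := by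
      have h5 : (sg (ext s) m) ^ 2 = 1 := by
        rw [← sq_abs, abs_sg, one_pow]
      rw [mul_pow, h5, one_mul]
    rw [hs]
    have h5 := convex_pow q hA hB' (u := G (ext s) ^ 2 / A) (v := H (ext s) ^ 2 / B)
      (by positivity) (by positivity)
    have h6 : A * (G (ext s) ^ 2 / A) + 2 * (q : ℝ) * B * (H (ext s) ^ 2 / B) =
        G (ext s) ^ 2 + 2 * q * H (ext s) ^ 2 := by
      field_simp
    rw [h6, div_pow, div_pow, ← pow_mul, ← pow_mul] at h5
    refine le_trans (pow_le_pow_left₀ ?_ ?_ q) h5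
    · have h7 : (0 : ℝ) ≤ 2 * q - 1 := by linarith
      positivity
    · have h7 := sq_nonneg (H (ext s))
      nlinarith
  have h4 : 2 * ∑ s : Fin n → Bool, (G (ext s) + sg (ext s) m * H (ext s)) ^ (2 * q) ≤
      2 * ((A + 2 * q * B) ^ q * (A / (A + 2 * q * B) * ((∑ s : Fin n → Bool, G (ext s) ^ (2 * q)) / A ^ q) +
        2 * q * B / (A + 2 * q * B) * ((∑ s : Fin n → Bool, H (ext s) ^ (2 * q)) / B ^ q))) := by
    have e1 : 2 * ∑ s : Fin n → Bool, (G (ext s) + sg (ext s) m * H (ext s)) ^ (2 * q) =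
        ∑ s : Fin n → Bool, ((G (ext s) + sg (ext s) m * H (ext s)) ^ (2 * q) +
          (G (ext s) - sg (ext s) m * H (ext s)) ^ (2 * q)) := by
      rw [Finset.sum_add_distrib, ← h3]
      ring
    rw [e1]
    refine (Finset.sum_le_sum fun s _ => hpt s).trans (le_of_eq ?_)
    rw [← Finset.mul_sum, ← Finset.mul_sum, Finset.sum_add_distrib, ← Finset.mul_sum,
      ← Finset.mul_sum, Finset.sum_div, Finset.sum_div]
  have h9 : (∑ s : Fin n → Bool, G (ext s) ^ (2 * q)) / A ^ q ≤ 2 ^ n := by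
    rw [div_le_iff₀ (by positivity)]
    exact h1
  have h10 : (∑ s : Fin n → Bool, H (ext s) ^ (2 * q)) / B ^ q ≤ 2 ^ n := by
    rw [div_le_iff₀ (by positivity)]
    exact h2
  have h11 : A / (A + 2 * q * B) * ((∑ s : Fin n → Bool, G (ext s) ^ (2 * q)) / A ^ q) +
      2 * q * B / (A + 2 * q * B) * ((∑ s : Fin n → Bool, H (ext s) ^ (2 * q)) / B ^ q) ≤ 2 ^ n := by
    have e1 : A / (A + 2 * q * B) * ((∑ s : Fin n → Bool, G (ext s) ^ (2 * q)) / A ^ q) ≤
        A / (A + 2 * q * B) * 2 ^ n := mul_le_mul_of_nonneg_left h9 (by positivity)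
    have e2 : 2 * q * B / (A + 2 * q * B) * ((∑ s : Fin n → Bool, H (ext s) ^ (2 * q)) / B ^ q) ≤
        2 * q * B / (A + 2 * q * B) * 2 ^ n := mul_le_mul_of_nonneg_left h10 (by positivity)
    have e3 : A / (A + 2 * q * B) * 2 ^ n + 2 * q * B / (A + 2 * q * B) * 2 ^ n = 2 ^ n := by
      field_simp
    linarith
  have h12 := mul_le_mul_of_nonneg_left h11 (by positivity : 0 ≤ (A + 2 * (q : ℝ) * B) ^ q)
  linarith [mul_comm ((A + 2 * (q : ℝ) * B) ^ q) (2 ^ n)]

/-- the weighted sum of squares -/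
noncomputable def Mq (q k X : ℕ) (v : ℕ → ℝ) : ℝ :=
  ∑ m ∈ sm k X, (2 * (q : ℝ)) ^ m.primeFactors.card * v m ^ 2

theorem Mq_nonneg (q k X : ℕ) (v : ℕ → ℝ) : 0 ≤ Mq q k X v :=
  Finset.sum_nonneg fun m _ => by positivity

theorem Mq_succ (q k X : ℕ) (v : ℕ → ℝ) (hv : ∀ m, X < m → v m = 0) :
    Mq q (k + 1) X v = Mq q k X v + 2 * q * Mq q k X (dil k v) := by
  unfold Mq
  rw [sum_sm_succ k X (fun m => (2 * (q : ℝ)) ^ m.primeFactors.card * v m ^ 2)
    (fun m hm => by simp only [hv m hm]; ring), Finset.mul_sum]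
  congr 1
  refine Finset.sum_congr rfl fun m hm => ?_
  rw [mem_sm] at hm
  obtain ⟨⟨h3, h3'⟩, h4, h5⟩ := hm
  have hnot : pr k ∉ m.primeFactors := fun h => lt_irrefl _ (h5 _ h)
  rw [Nat.primeFactors_mul (pr_prime k).ne_zero (by omega), (pr_prime k).primeFactors,
    ← Finset.insert_eq, Finset.card_insert_of_notMem hnot]
  unfold dil
  ring

theorem hyper (q : ℕ) (hq : 1 ≤ q) (n X : ℕ) (hX : 1 ≤ X) (j : ℕ) (hj : j ≤ n) :
    ∀ (v : ℕ → ℝ) (M : ℝ), (∀ m, X < m → v m = 0) → Mq q j X v < M →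
      ∑ s : Fin n → Bool, Sq (ext s) j X v ^ (2 * q) ≤ 2 ^ n * M ^ q := by
  have hqR : (1 : ℝ) ≤ q := by exact_mod_cast hq
  have hREC := t_REC
  induction j with
  | zero =>
    intro v M hv hM
    have h1 : ∀ s : Fin n → Bool, Sq (ext s) 0 X v ^ (2 * q) = (v 1 ^ 2) ^ q := by
      intro s
      rw [(hREC (ext s) (fun _ => 0) X v hX hv).1, pow_mul]
    have h2 : Mq q 0 X v = v 1 ^ 2 := by
      unfold Mq
      rw [sm_zero hX, Finset.sum_singleton]
      simp
    rw [Finset.sum_congr rfl fun s _ => h1 s, Finset.sum_const, Finset.card_univ, Fintype.card_fun,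
      Fintype.card_bool, Fintype.card_fin, nsmul_eq_mul, Nat.cast_pow, Nat.cast_two]
    refine mul_le_mul_of_nonneg_left (pow_le_pow_left₀ (sq_nonneg _) ?_ _) (by positivity)
    rw [← h2]
    exact hM.le
  | succ j ih =>
    intro v M hv hM
    have hdil : ∀ m, X < m → dil j v m = 0 := fun m hm =>
      hv _ (hm.trans_le (Nat.le_mul_of_pos_left m (pr_prime _).pos))
    rw [Mq_succ q j X v hv] at hM
    have hs1 := Mq_nonneg q j X v
    have hs2 := Mq_nonneg q j X (dil j v)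
    set s1 := Mq q j X v with hs1d
    set s2 := Mq q j X (dil j v) with hs2d
    set η : ℝ := (M - (s1 + 2 * q * s2)) / (2 * q + 1) with hη
    have hη0 : 0 < η := div_pos (by linarith) (by positivity)
    have hsum : (s1 + η) + 2 * q * (s2 + η) = M := by
      rw [hη]
      field_simp
      ring
    have hlt : j < n := hj
    have h3 := wstep q hq (⟨j, hlt⟩ : Fin n) (fun ω => Sq ω j X v) (fun ω => Sq ω j X (dil j v))
      (fun s => Sq_congr X v fun i hi => ext_flip_ne _ _ (ne_of_lt hi))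
      (fun s => Sq_congr X (dil j v) fun i hi => ext_flip_ne _ _ (ne_of_lt hi))
      (by linarith : 0 < s1 + η) (by linarith : 0 < s2 + η)
      (ih hlt.le v (s1 + η) hv (by linarith)) (ih hlt.le (dil j v) (s2 + η) hdil (by linarith))
    rw [hsum] at h3
    refine le_trans (le_of_eq ?_) h3
    refine Finset.sum_congr rfl fun s _ => ?_
    rw [(hREC (ext s) (fun _ => 0) X v hX hv).2.2.1 j]

/-- no condition beyond `X`, and the sum itself -/
theorem hyper' (q : ℕ) (hq : 1 ≤ q) (k X : ℕ) (hX : 1 ≤ X) (v : ℕ → ℝ) :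
    ∑ s : Fin k → Bool, Sq (ext s) k X v ^ (2 * q) ≤ 2 ^ k * Mq q k X v ^ q := by
  classical
  set v' : ℕ → ℝ := fun m => if m ≤ X then v m else 0 with hv'
  have h1 : ∀ ω, Sq ω k X v = Sq ω k X v' := by
    intro ω
    unfold Sq
    refine Finset.sum_congr rfl fun m hm => ?_
    rw [mem_sm] at hm
    rw [hv']
    simp only [if_pos hm.1.2]
  have h2 : Mq q k X v = Mq q k X v' := by
    unfold Mq
    refine Finset.sum_congr rfl fun m hm => ?_
    rw [mem_sm] at hm
    rw [hv']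
    simp only [if_pos hm.1.2]
  simp only [h1, h2]
  have h3 : ∀ M : ℝ, Mq q k X v' < M → ∑ s : Fin k → Bool, Sq (ext s) k X v' ^ (2 * q) ≤ 2 ^ k * M ^ q :=
    fun M hM => hyper q hq k X hX k le_rfl v' M (fun m hm => by rw [hv']; simp only [if_neg (not_le.2 hm)]) hM
  have h4 : Tendsto (fun M : ℝ => 2 ^ k * M ^ q) (𝓝[>] (Mq q k X v')) (𝓝 (2 ^ k * Mq q k X v' ^ q)) := by
    refine Tendsto.mono_left ?_ nhdsWithin_le_nhds
    exact (continuous_const.mul (continuous_pow q)).tendsto _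
  exact ge_of_tendsto h4 (eventually_nhdsWithin_of_forall fun M hM => h3 M hM)

/-- **S_BON.** -/
theorem bon : S_BON := by
  classical
  intro q k X w l hq hl
  rcases Nat.eq_zero_or_pos X with rfl | hX
  · refine ⟨∅, by simp; positivity, ?_⟩
    intro ω hω
    exfalso
    rw [Set.mem_ofPred_eq] at hω
    have h1 : rg k 0 = ∅ := by
      unfold rg
      simp
    unfold Zq at hω
    rw [h1] at hω
    simp at hω
  have hM : ∀ b, ∑ m ∈ sm k X, (2 * (q : ℝ)) ^ m.primeFactors.card * w (b * m) ^ 2 =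
      Mq q k X (fun m => w (b * m)) := fun b => rfl
  simp only [hM]
  set M : ℝ := ∑ b ∈ rg k X, Mq q k X (fun m => w (b * m)) with hMd
  have hM0 : 0 ≤ M := Finset.sum_nonneg fun b _ => Mq_nonneg _ _ _ _
  have hq2 : (0 : ℝ) < 2 * q := by
    have : (1 : ℝ) ≤ q := by exact_mod_cast hq
    linarith
  -- if the weight is zero, so is the sum
  have hzero : ∀ b, Mq q k X (fun m => w (b * m)) = 0 → ∀ ω, Sq ω k X (fun m => w (b * m)) = 0 := by
    intro b hb ω
    unfold Mq at hb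
    rw [Finset.sum_eq_zero_iff_of_nonneg fun m _ => by positivity] at hb
    unfold Sq
    refine Finset.sum_eq_zero fun m hm => ?_
    have h1 := hb m hm
    rcases mul_eq_zero.1 h1 with h2 | h2
    · exact absurd h2 (pow_pos hq2 _).ne'
    · rw [pow_eq_zero_iff two_ne_zero] at h2
      rw [h2, zero_mul]
  have hdep : ∀ ω : ℕ → Bool, Zq (ext fun i : Fin k => ω i) k X w = Zq ω k X w := by
    intro ω
    unfold Zq
    refine Finset.sum_congr rfl fun b _ => ?_
    rw [Sq_congr X (fun m => w (b * m)) (ω' := ω)]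
    intro i hi
    unfold ext
    simp [hi]
  rcases hM0.eq_or_lt with hM' | hM'
  · refine ⟨∅, by simp; positivity, ?_⟩
    intro ω hω
    exfalso
    rw [Set.mem_ofPred_eq, ← hM', mul_zero] at hω
    have h1 : Zq ω k X w = 0 := by
      unfold Zq
      refine Finset.sum_eq_zero fun b hb => ?_
      have h2 := (Finset.sum_eq_zero_iff_of_nonneg fun b _ => Mq_nonneg q k X (fun m => w (b * m))).1
        hM'.symm b hb
      rw [hzero b h2 ω]
      ring
    rw [h1] at hω
    exact lt_irrefl _ hω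
  · -- Jensen
    have hJ : ∀ ω, Zq ω k X w ^ q ≤ ∑ b ∈ rg k X, Mq q k X (fun m => w (b * m)) / M *
        (M ^ q * (Sq ω k X (fun m => w (b * m)) ^ (2 * q) / Mq q k X (fun m => w (b * m)) ^ q)) := by
      intro ω
      have h1 := Real.pow_arith_mean_le_arith_mean_pow (rg k X)
        (fun b => Mq q k X (fun m => w (b * m)) / M)
        (fun b => M * (Sq ω k X (fun m => w (b * m)) ^ 2 / Mq q k X (fun m => w (b * m))))
        (fun b _ => div_nonneg (Mq_nonneg _ _ _ _) hM0)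
        (by rw [← Finset.sum_div]; exact div_self hM'.ne')
        (fun b _ => mul_nonneg hM0 (div_nonneg (sq_nonneg _) (Mq_nonneg _ _ _ _))) q
      have h2 : ∑ b ∈ rg k X, Mq q k X (fun m => w (b * m)) / M *
          (M * (Sq ω k X (fun m => w (b * m)) ^ 2 / Mq q k X (fun m => w (b * m)))) = Zq ω k X w := by
        unfold Zq
        refine Finset.sum_congr rfl fun b _ => ?_
        rcases eq_or_ne (Mq q k X (fun m => w (b * m))) 0 with h3 | h3
        · rw [h3, hzero b h3 ω]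
          simp
        · field_simp
      rw [h2] at h1
      refine h1.trans (le_of_eq ?_)
      refine Finset.sum_congr rfl fun b _ => ?_
      rw [mul_pow, div_pow, ← pow_mul]
    have hsum : ∑ s : Fin k → Bool, Zq (ext s) k X w ^ q ≤ 2 ^ k * M ^ q := by
      refine (Finset.sum_le_sum fun s _ => hJ (ext s)).trans ?_
      rw [Finset.sum_comm]
      have h1 : ∀ b ∈ rg k X, ∑ s : Fin k → Bool, Mq q k X (fun m => w (b * m)) / M *
          (M ^ q * (Sq (ext s) k X (fun m => w (b * m)) ^ (2 * q) / Mq q k X (fun m => w (b * m)) ^ q)) ≤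
          Mq q k X (fun m => w (b * m)) / M * (M ^ q * 2 ^ k) := by
        intro b _
        rw [← Finset.mul_sum, ← Finset.mul_sum, ← Finset.sum_div]
        refine mul_le_mul_of_nonneg_left (mul_le_mul_of_nonneg_left ?_ (by positivity))
          (div_nonneg (Mq_nonneg _ _ _ _) hM0)
        refine div_le_of_le_mul₀ (pow_nonneg (Mq_nonneg _ _ _ _) _) (by positivity) ?_
        exact hyper' q hq k X hX _
      refine (Finset.sum_le_sum h1).trans (le_of_eq ?_)
      rw [← Finset.sum_mul, ← Finset.sum_div, ← hMd, div_self hM'.ne']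
      ring
    refine ⟨Finset.univ.filter fun s => l * M < Zq (ext s) k X w, ?_, ?_⟩
    · have hlM : 0 < l * M := mul_pos hl hM'
      have h1 : ((Finset.univ.filter fun s : Fin k → Bool => l * M < Zq (ext s) k X w).card : ℝ) *
          (l * M) ^ q ≤ 2 ^ k * M ^ q := by
        refine le_trans ?_ hsum
        rw [← nsmul_eq_mul, ← Finset.sum_const]
        refine (Finset.sum_le_sum (fun s hs => ?_)).trans
          (Finset.sum_le_sum_of_subset_of_nonneg (Finset.filter_subset _ _) (fun s _ _ => ?_))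
        · rw [Finset.mem_filter] at hs
          exact pow_le_pow_left₀ hlM.le hs.2.le _
        · exact pow_nonneg (Finset.sum_nonneg fun b _ => sq_nonneg _) _
      have h2 : (2 : ℝ) ^ k * M ^ q = 2 ^ k * (1 / l) ^ q * (l * M) ^ q := by
        rw [mul_assoc, ← mul_pow]
        congr 2
        field_simp
      rw [h2] at h1
      exact le_of_mul_le_mul_right h1 (pow_pos hlM _)
    · intro ω hω
      unfold cyl
      rw [Set.mem_ofPred_eq] at hω ⊢
      rw [Finset.mem_filter]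
      refine ⟨Finset.mem_univ _, ?_⟩
      rw [hdep]
      exact hω

end Pool.Agent.Q237.L2
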