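import Pool.Agent.Q255.L2.Stm
import Pool.Agent.Q13.EP.REC

/-! # Project L2 (helper255): the bound for the weighted sums of squares -/

set_option autoImplicit false

namespace Pool.Agent.Q237.L2

open Filter Topology MeasureTheory Pool.Agent.Q255.IC Pool.Agent.Q255.IR Pool.Agent.Q255.EP
open Pool.Agent.Q255.L2 Pool.Agent.Q13.EP
open scoped ENNReal

theorem Sq_congr {ω ω' : ℕ → Bool} {k : ℕ} (X : ℕ) (w : ℕ → ℝ) (h : ∀ i < k, ω i = ω' i) :
    Sq ω k X w = Sq ω' k X w := by
  unfold Sq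
  refine Finset.sum_congr rfl fun m hm => ?_
  rw [mem_sm] at hm
  rw [cm_congr h hm.2.2]

/-- the term of `b` in the expansion of `Yq` -/
noncomputable def tm (ω : ℕ → Bool) (κ : ℕ → ℝ) (X k0 : ℕ) (w : ℕ → ℝ) (b : ℕ) : ℝ :=
  open scoped Classical in
  if ∀ p ∈ b.primeFactors, pr k0 ≤ p then
    (∏ p ∈ b.primeFactors, κ (Nat.count Nat.Prime p)) * Sq ω k0 X (fun m => w (b * m)) ^ 2 else 0

theorem Sq_zero (ω : ℕ → Bool) (k X : ℕ) (w : ℕ → ℝ) (h : ∀ m, 1 ≤ m → w m = 0) : Sq ω k X w = 0 := by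
  unfold Sq
  refine Finset.sum_eq_zero fun m hm => ?_
  rw [mem_sm] at hm
  rw [h m hm.1.1, zero_mul]

theorem tm_zero (ω : ℕ → Bool) (κ : ℕ → ℝ) (X k0 : ℕ) (w : ℕ → ℝ) (hw : ∀ m, X < m → w m = 0) (b : ℕ)
    (hb : X < b) : tm ω κ X k0 w b = 0 := by
  unfold tm
  split_ifs with h
  · rw [Sq_zero ω k0 X (fun m => w (b * m)) fun m hm => hw _ (hb.trans_le (Nat.le_mul_of_pos_right b hm))]
    ring
  · rfl

/-- the expansion -/
theorem Yq_eq (ω : ℕ → Bool) (κ : ℕ → ℝ) (X k0 : ℕ) (hX : 1 ≤ X) (j : ℕ) : ∀ w : ℕ → ℝ,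
    (∀ m, X < m → w m = 0) → Yq ω κ X k0 j w = ∑ b ∈ sm (k0 + j) X, tm ω κ X k0 w b := by
  classical
  induction j with
  | zero =>
    intro w hw
    rw [Finset.sum_eq_single_of_mem 1]
    · unfold tm Yq
      simp
    · rw [mem_sm]
      exact ⟨⟨le_rfl, hX⟩, squarefree_one, by simp⟩
    · intro b hb hb1
      rw [mem_sm, add_zero] at hb
      unfold tm
      rw [if_neg]
      intro h
      obtain ⟨p, hp, hpb⟩ := Nat.exists_prime_and_dvd hb1
      have h1 : p ∈ b.primeFactors := Nat.mem_primeFactors.2 ⟨hp, hpb, by omega⟩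
      exact absurd (hb.2.2 p h1) (not_lt.2 (h p h1))
  | succ j ih =>
    intro w hw
    have hdil : ∀ m, X < m → dil (k0 + j) w m = 0 := fun m hm =>
      hw _ (hm.trans_le (Nat.le_mul_of_pos_left m (pr_prime _).pos))
    show Yq ω κ X k0 j w + κ (k0 + j) * Yq ω κ X k0 j (dil (k0 + j) w) = _
    rw [ih w hw, ih (dil (k0 + j) w) hdil, ← add_assoc k0 j 1,
      sum_sm_succ (k0 + j) X (tm ω κ X k0 w) (tm_zero ω κ X k0 w hw), Finset.mul_sum]
    congr 1
    refine Finset.sum_congr rfl fun b hb => ?_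
    rw [mem_sm] at hb
    obtain ⟨⟨h3, h3'⟩, h4, h5⟩ := hb
    have hnot : pr (k0 + j) ∉ b.primeFactors := fun h => lt_irrefl _ (h5 _ h)
    have hpf : (pr (k0 + j) * b).primeFactors = insert (pr (k0 + j)) b.primeFactors := by
      rw [Nat.primeFactors_mul (pr_prime _).ne_zero (by omega), (pr_prime _).primeFactors,
        ← Finset.insert_eq]
    have hle : pr k0 ≤ pr (k0 + j) := pr_strictMono.monotone (Nat.le_add_right k0 j)
    unfold tm
    by_cases h : ∀ p ∈ b.primeFactors, pr k0 ≤ p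
    · rw [if_pos h, if_pos]
      · rw [hpf, Finset.prod_insert hnot, count_pr]
        have h6 : (fun m => dil (k0 + j) w (b * m)) = fun m => w (pr (k0 + j) * b * m) := by
          funext m
          unfold dil
          rw [mul_assoc]
        rw [h6]
        ring
      · intro p hp
        rw [hpf, Finset.mem_insert] at hp
        rcases hp with rfl | hp
        · exact hle
        · exact h p hp
    · rw [if_neg h, if_neg, mul_zero]
      intro h6
      apply h
      intro p hp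
      apply h6
      rw [hpf]
      exact Finset.mem_insert_of_mem hp

/-- **S_YB.** -/
theorem yb : S_YB := by
  classical
  intro ω κ X k0 j w hX hκ
  refine ⟨?_, ?_, ?_⟩
  · induction j generalizing w with
    | zero => exact sq_nonneg _
    | succ j ih => exact add_nonneg (ih w) (mul_nonneg (hκ _) (ih _))
  · intro ω' h
    induction j generalizing w with
    | zero =>
      show Sq ω k0 X w ^ 2 = Sq ω' k0 X w ^ 2
      rw [Sq_congr X w h]
    | succ j ih =>
      show Yq ω κ X k0 j w + κ (k0 + j) * Yq ω κ X k0 j (dil (k0 + j) w) =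
        Yq ω' κ X k0 j w + κ (k0 + j) * Yq ω' κ X k0 j (dil (k0 + j) w)
      rw [ih w, ih (dil (k0 + j) w)]
  · intro hw θ hθ hκθ
    rw [Yq_eq ω κ X k0 hX j w hw]
    have hX1 : (1 : ℝ) ≤ X := by exact_mod_cast hX
    have h1 : ∀ b ∈ sm (k0 + j) X, tm ω κ X k0 w b =
        if ∀ p ∈ b.primeFactors, pr k0 ≤ p then
          (∏ p ∈ b.primeFactors, κ (Nat.count Nat.Prime p)) * Sq ω k0 X (fun m => w (b * m)) ^ 2 else 0 := by
      intro b _
      unfold tm
      rfl
    rw [Finset.sum_congr rfl h1, ← Finset.sum_filter]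
    unfold Zq
    rw [Finset.mul_sum]
    have hsub : (sm (k0 + j) X).filter (fun b => ∀ p ∈ b.primeFactors, pr k0 ≤ p) ⊆ rg k0 X := by
      intro b hb
      rw [Finset.mem_filter, mem_sm] at hb
      unfold rg
      rw [Finset.mem_filter, Finset.mem_Icc]
      exact ⟨hb.1.1, hb.1.2.1, hb.2⟩
    refine (Finset.sum_le_sum fun b hb => ?_).trans
      (Finset.sum_le_sum_of_subset_of_nonneg hsub fun b _ _ => by positivity)
    rw [Finset.mem_filter, mem_sm] at hb
    obtain ⟨⟨⟨h3, h3'⟩, h4, h5⟩, h6⟩ := hb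
    refine mul_le_mul_of_nonneg_right ?_ (sq_nonneg _)
    have h7 : ∏ p ∈ b.primeFactors, κ (Nat.count Nat.Prime p) ≤ ∏ p ∈ b.primeFactors, (p : ℝ) ^ θ := by
      refine Finset.prod_le_prod (fun p _ => hκ _) fun p hp => ?_
      have hpp := Nat.prime_of_mem_primeFactors hp
      have h8 : k0 ≤ Nat.count Nat.Prime p := by
        have h9 := h6 p hp
        rw [← pr_count hpp] at h9
        exact pr_strictMono.le_iff_le.1 h9
      have h10 := hκθ _ h8
      rwa [pr_count hpp] at h10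
    refine h7.trans ?_
    rw [Real.finset_prod_rpow _ _ (fun p _ => Nat.cast_nonneg p)]
    refine Real.rpow_le_rpow (Finset.prod_nonneg fun p _ => Nat.cast_nonneg p) ?_ hθ
    have h11 : ∏ p ∈ b.primeFactors, (p : ℝ) = b := by
      rw [← Nat.cast_prod, Nat.prod_primeFactors_of_squarefree h4]
    rw [h11]
    exact_mod_cast h3'

end Pool.Agent.Q237.L2
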